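import Mathlib
import Pool.Agent.H98.Cubic.Targets
import Pool.Agent.H98.Cubic.Basic

set_option autoImplicit false

open Finset MeasureTheory Filter Topology
open Complex (Gammaℝ Gammaℂ)

namespace Pool.Agent.H58.Cubic

open Pool.Agent.H98.Cubic

theorem ofReal_cpow_conj {x : ℝ} (hx : 0 < x) (s : ℂ) :
    (x : ℂ) ^ ((starRingEnd ℂ) s) = (starRingEnd ℂ) ((x : ℂ) ^ s) := by
  rw [Complex.cpow_conj _ _ (by rw [Complex.arg_ofReal_of_nonneg hx.le]; exact Real.pi_ne_zero.symm),
    Complex.conj_ofReal]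

theorem riemannZeta_conj_of_one_lt {s : ℂ} (hs : 1 < s.re) :
    (starRingEnd ℂ) (riemannZeta ((starRingEnd ℂ) s)) = riemannZeta s := by
  have hs' : 1 < ((starRingEnd ℂ) s).re := by rwa [Complex.conj_re]
  rw [zeta_eq_tsum_one_div_nat_add_one_cpow hs', zeta_eq_tsum_one_div_nat_add_one_cpow hs,
    Complex.conj_tsum]
  refine tsum_congr (fun n => ?_)
  have h1 : ((n : ℂ) + 1) = (((n : ℝ) + 1 : ℝ) : ℂ) := by push_cast; rfl
  rw [h1, ofReal_cpow_conj (by positivity), map_div₀, map_one, Complex.conj_conj]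

theorem riemannZeta_conj {s : ℂ} (hs : s ≠ 1) :
    riemannZeta ((starRingEnd ℂ) s) = (starRingEnd ℂ) (riemannZeta s) := by
  have hU : IsOpen ({1}ᶜ : Set ℂ) := isOpen_compl_singleton
  have hf : AnalyticOnNhd ℂ riemannZeta {1}ᶜ := by
    apply DifferentiableOn.analyticOnNhd _ hU
    intro z hz
    exact (differentiableAt_riemannZeta hz).differentiableWithinAt
  have hg : AnalyticOnNhd ℂ ((starRingEnd ℂ) ∘ riemannZeta ∘ (starRingEnd ℂ)) {1}ᶜ := by
    apply DifferentiableOn.analyticOnNhd _ hU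
    intro z hz
    apply DifferentiableAt.differentiableWithinAt
    rw [differentiableAt_conj_conj_iff]
    apply differentiableAt_riemannZeta
    intro h
    apply hz
    have := congrArg (starRingEnd ℂ) h
    rwa [Complex.conj_conj, map_one] at this
  have hconn : IsPreconnected ({1}ᶜ : Set ℂ) := by
    apply IsConnected.isPreconnected
    apply isConnected_compl_singleton_of_one_lt_rank
    simp [Complex.rank_real_complex]
  have h2 : (2 : ℂ) ∈ ({1}ᶜ : Set ℂ) := by simp
  have hev : riemannZeta =ᶠ[𝓝 2] ((starRingEnd ℂ) ∘ riemannZeta ∘ (starRingEnd ℂ)) := by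
    have hopen : IsOpen {z : ℂ | 1 < z.re} := isOpen_lt continuous_const Complex.continuous_re
    have : {z : ℂ | 1 < z.re} ∈ 𝓝 (2 : ℂ) := hopen.mem_nhds (by simp)
    filter_upwards [this] with z hz
    exact (riemannZeta_conj_of_one_lt hz).symm
  have key := hf.eqOn_of_preconnected_of_eventuallyEq hg hconn h2 hev
  have hk := key (Set.mem_compl_singleton_iff.mpr hs)
  simp only [Function.comp_apply] at hk
  rw [hk, Complex.conj_conj]

theorem gammaR_conj (s : ℂ) : Gammaℝ ((starRingEnd ℂ) s) = (starRingEnd ℂ) (Gammaℝ s) := by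
  rw [Complex.Gammaℝ_def, Complex.Gammaℝ_def, map_mul]
  have h2 : (starRingEnd ℂ) (2 : ℂ) = 2 := by
    have := Complex.conj_ofReal 2
    simpa using this
  congr 1
  · rw [← ofReal_cpow_conj Real.pi_pos]
    congr 1
    rw [map_div₀, map_neg, h2]
  · rw [← Complex.Gamma_conj, map_div₀, h2]

/-- the point on the critical line -/
noncomputable def cs (t : ℝ) : ℂ := 1 / 2 + t * Complex.I

theorem cs_re (t : ℝ) : (cs t).re = 1 / 2 := by simp [cs]

theorem cs_im (t : ℝ) : (cs t).im = t := by simp [cs]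

theorem cs_ne_one (t : ℝ) : cs t ≠ 1 := by
  intro h
  have := congrArg Complex.re h
  rw [cs_re, Complex.one_re] at this
  norm_num at this

theorem cs_ne_zero (t : ℝ) : cs t ≠ 0 := by
  intro h
  have := congrArg Complex.re h
  rw [cs_re, Complex.zero_re] at this
  norm_num at this

theorem conj_cs (t : ℝ) : (starRingEnd ℂ) (cs t) = 1 - cs t := by
  apply Complex.ext
  · rw [Complex.conj_re, Complex.sub_re, cs_re, Complex.one_re]; norm_num
  · rw [Complex.conj_im, Complex.sub_im, cs_im, Complex.one_im]; ring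

theorem gammaR_cs_ne (t : ℝ) : Gammaℝ (cs t) ≠ 0 :=
  Complex.Gammaℝ_ne_zero_of_re_pos (by rw [cs_re]; norm_num)

theorem eTheta_eq (t : ℝ) : eTheta t = Gammaℝ (cs t) / ‖Gammaℝ (cs t)‖ := by
  have hpi : (Real.pi : ℂ) ≠ 0 := Complex.ofReal_ne_zero.mpr Real.pi_ne_zero
  have h1 : Gammaℝ (cs t) = ((Real.pi ^ (-(1 / 4) : ℝ) : ℝ) : ℂ) *
      ((Real.pi : ℂ) ^ (-(t * Complex.I) / 2) * Complex.Gamma (1 / 4 + t * Complex.I / 2)) := by
    rw [Complex.Gammaℝ_def, ← mul_assoc, Complex.ofReal_cpow Real.pi_pos.le,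
      ← Complex.cpow_add _ _ hpi]
    unfold cs
    congr 2
    · push_cast; ring
    · ring
  have h2 : ‖(Real.pi : ℂ) ^ (-(t * Complex.I) / 2)‖ = 1 := by
    rw [Complex.norm_cpow_eq_rpow_re_of_pos Real.pi_pos]
    have : (-(t * Complex.I) / 2 : ℂ).re = 0 := by simp
    rw [this, Real.rpow_zero]
  have h3 : (0 : ℝ) < Real.pi ^ (-(1 / 4) : ℝ) := by positivity
  have h4 : ‖Gammaℝ (cs t)‖ = Real.pi ^ (-(1 / 4) : ℝ) *
      ‖Complex.Gamma (1 / 4 + t * Complex.I / 2)‖ := by
    rw [h1, norm_mul, norm_mul, h2, one_mul, Complex.norm_real, Real.norm_eq_abs, abs_of_pos h3]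
  have h5 : ‖Complex.Gamma (1 / 4 + t * Complex.I / 2)‖ ≠ 0 := by
    intro h
    have := gammaR_cs_ne t
    apply this
    rw [← norm_eq_zero, h4, h, mul_zero]
  rw [h4, h1]
  unfold eTheta
  have h5' : (‖Complex.Gamma (1 / 4 + t * Complex.I / 2)‖ : ℂ) ≠ 0 := by exact_mod_cast h5
  have h3' : ((Real.pi ^ (-(1 / 4) : ℝ) : ℝ) : ℂ) ≠ 0 := by exact_mod_cast h3.ne'
  push_cast
  rw [Complex.ofReal_cpow Real.pi_pos.le] at h3'
  push_cast at h3'
  field_simp

theorem norm_eTheta (t : ℝ) : ‖eTheta t‖ = 1 := by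
  rw [eTheta_eq, norm_div, Complex.norm_real, norm_norm,
    div_self (norm_ne_zero_iff.mpr (gammaR_cs_ne t))]

theorem eTheta_mul_zeta (t : ℝ) : eTheta t * riemannZeta (1 / 2 + t * Complex.I) =
    completedRiemannZeta (cs t) / ‖Gammaℝ (cs t)‖ := by
  have h1 : riemannZeta (1 / 2 + t * Complex.I) = completedRiemannZeta (cs t) / Gammaℝ (cs t) :=
    riemannZeta_def_of_ne_zero (cs_ne_zero t)
  rw [h1, eTheta_eq]
  have := gammaR_cs_ne t
  field_simp

theorem completed_real (t : ℝ) : (starRingEnd ℂ) (completedRiemannZeta (cs t)) =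
    completedRiemannZeta (cs t) := by
  have h1 : ∀ s : ℂ, s ≠ 0 → Gammaℝ s ≠ 0 → completedRiemannZeta s = riemannZeta s * Gammaℝ s := by
    intro s hs hg
    rw [riemannZeta_def_of_ne_zero hs]
    field_simp
  have h2 : 1 - cs t ≠ 0 := sub_ne_zero.mpr (cs_ne_one t).symm
  have h3 : Gammaℝ (1 - cs t) ≠ 0 := by
    apply Complex.Gammaℝ_ne_zero_of_re_pos
    rw [Complex.sub_re, cs_re, Complex.one_re]; norm_num
  rw [h1 _ (cs_ne_zero t) (gammaR_cs_ne t), map_mul, ← riemannZeta_conj (cs_ne_one t),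
    ← gammaR_conj, conj_cs, ← h1 _ h2 h3, completedRiemannZeta_one_sub,
    ← h1 _ (cs_ne_zero t) (gammaR_cs_ne t)]

theorem eTheta_continuous : Continuous eTheta := by
  have hcs : Continuous cs := by unfold cs; fun_prop
  have hg : Continuous (fun t => Gammaℝ (cs t)) := by
    rw [continuous_iff_continuousAt]
    intro t
    have h1 : ContinuousAt (fun s => (Gammaℝ s)⁻¹) (cs t) :=
      (Complex.differentiable_Gammaℝ_inv _).continuousAt
    have h2 : ContinuousAt (fun t => (Gammaℝ (cs t))⁻¹) t := h1.comp hcs.continuousAt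
    have h3 := h2.inv₀ (inv_ne_zero (gammaR_cs_ne t))
    have e : (fun t => Gammaℝ (cs t)) = (fun t => (Gammaℝ (cs t))⁻¹)⁻¹ := by
      funext t; simp
    rw [e]
    exact h3
  have : eTheta = fun t => Gammaℝ (cs t) / ‖Gammaℝ (cs t)‖ := by
    funext t; exact eTheta_eq t
  rw [this]
  apply hg.div (Complex.continuous_ofReal.comp hg.norm)
  intro t
  simpa using gammaR_cs_ne t

theorem zreal : TZreal := by
  refine ⟨fun t => ?_, norm_eTheta, ?_⟩
  · have h : (starRingEnd ℂ) (eTheta t * riemannZeta (1 / 2 + t * Complex.I)) =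
        eTheta t * riemannZeta (1 / 2 + t * Complex.I) := by
      rw [eTheta_mul_zeta, map_div₀, completed_real, Complex.conj_ofReal]
    rw [Complex.conj_eq_iff_re] at h
    exact h
  · have hcs : Continuous cs := by unfold cs; fun_prop
    have hz : Continuous (fun t : ℝ => riemannZeta (1 / 2 + t * Complex.I)) := by
      rw [continuous_iff_continuousAt]
      intro t
      have h1 : ContinuousAt riemannZeta (cs t) :=
        (differentiableAt_riemannZeta (cs_ne_one t)).continuousAt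
      exact ContinuousAt.comp (f := cs) h1 hcs.continuousAt
    exact Complex.continuous_re.comp (eTheta_continuous.mul hz)

theorem eTheta_sq (t : ℝ) : eTheta t ^ 2 = Gammaℝ (cs t) / Gammaℝ (1 - cs t) := by
  rw [← conj_cs, gammaR_conj, eTheta_eq]
  have h1 := gammaR_cs_ne t
  have h2 : (starRingEnd ℂ) (Gammaℝ (cs t)) ≠ 0 := by simpa using h1
  have h3 : ((‖Gammaℝ (cs t)‖ : ℝ) : ℂ) ^ 2 = Gammaℝ (cs t) * (starRingEnd ℂ) (Gammaℝ (cs t)) := by
    rw [Complex.mul_conj, Complex.normSq_eq_norm_sq]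
    push_cast; rfl
  rw [div_pow, h3]
  field_simp

theorem chiT_eTheta (t : ℝ) (ht : 0 < t) :
    chiT t * eTheta t ^ 2 * (1 - Complex.I * (Real.exp (-(Real.pi * t)) : ℂ)) = 1 := by
  have hpi : (Real.pi : ℂ) ≠ 0 := Complex.ofReal_ne_zero.mpr Real.pi_ne_zero
  set s : ℂ := cs t with hs
  have hne : ∀ n : ℕ, s ≠ -(2 * n + 1) := by
    intro n h
    have := congrArg Complex.re h
    rw [hs, cs_re] at this
    simp at this
    have hn : (0 : ℝ) ≤ n := Nat.cast_nonneg n
    linarith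
  rw [eTheta_sq, Complex.Gammaℝ_div_Gammaℝ_one_sub hne, Complex.Gammaℂ_def]
  have hG := Complex.Gamma_mul_Gamma_one_sub s
  have h1 : (1 / 2 - t * Complex.I : ℂ) = 1 - s := by rw [hs]; unfold cs; ring
  have h2 : (-1 / 2 + t * Complex.I : ℂ) = s - 1 := by rw [hs]; unfold cs; ring
  have h2pi : (2 * Real.pi : ℂ) ≠ 0 := by simp [Real.pi_ne_zero]
  have h3 : (2 * Real.pi : ℂ) ^ (s - 1) * (2 * Real.pi : ℂ) ^ (-s) = (2 * Real.pi : ℂ)⁻¹ := by
    rw [← Complex.cpow_add _ _ h2pi]
    have : s - 1 + -s = -1 := by ring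
    rw [this, Complex.cpow_neg_one]
  -- the two exponentials
  set u : ℂ := Complex.exp (Real.pi * s / 2 * Complex.I) with hu
  have hu0 : u ≠ 0 := Complex.exp_ne_zero _
  have hE : (Real.exp (Real.pi * t / 2) : ℂ) * ei (Real.pi / 4) = Complex.I * u⁻¹ := by
    have hI : Complex.I * u⁻¹ = Complex.exp (Real.pi / 2 * Complex.I) *
        Complex.exp (-(Real.pi * s / 2 * Complex.I)) := by
      rw [Complex.exp_pi_div_two_mul_I, hu, Complex.exp_neg]
    rw [hI]
    unfold ei
    rw [Complex.ofReal_exp, ← Complex.exp_add, ← Complex.exp_add]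
    congr 1
    rw [hs]; unfold cs
    push_cast
    linear_combination (Real.pi * t / 2 : ℂ) * Complex.I_sq
  have hX : Complex.I * (Real.exp (-(Real.pi * t)) : ℂ) = u ^ 2 := by
    have hI : Complex.I * (Real.exp (-(Real.pi * t)) : ℂ) =
        Complex.exp (Real.pi / 2 * Complex.I) * Complex.exp ((-(Real.pi * t) : ℝ) : ℂ) := by
      rw [Complex.exp_pi_div_two_mul_I, Complex.ofReal_exp]
    rw [hI, hu, ← Complex.exp_nat_mul, ← Complex.exp_add]
    congr 1
    rw [hs]; unfold cs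
    push_cast
    linear_combination (-(Real.pi * t) : ℂ) * Complex.I_sq
  have hsin : Complex.sin (Real.pi * s) = 2 * Complex.sin (Real.pi * s / 2) *
      Complex.cos (Real.pi * s / 2) := by
    rw [← Complex.sin_two_mul]; congr 1; ring
  have hsin2 : Complex.sin (Real.pi * s / 2) = (u⁻¹ - u) * Complex.I / 2 := by
    rw [Complex.sin, hu, ← Complex.exp_neg]
    congr 3
    ring_nf
  -- non vanishing
  have hu2 : u ^ 2 ≠ 1 := by
    rw [← hX]
    intro h
    have h4 := congrArg norm h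
    rw [norm_mul, Complex.norm_I, one_mul, Complex.norm_real, Real.norm_eq_abs,
      abs_of_pos (Real.exp_pos _), norm_one, Real.exp_eq_one_iff] at h4
    have := mul_pos Real.pi_pos ht
    linarith
  have hs2 : Complex.sin (Real.pi * s / 2) ≠ 0 := by
    rw [hsin2]
    intro h
    have h4 : u⁻¹ - u = 0 := by
      have := div_eq_zero_iff.mp h
      rcases this with h5 | h5
      · exact (mul_eq_zero.mp h5).resolve_right Complex.I_ne_zero
      · norm_num at h5
    apply hu2
    have h5 : u⁻¹ = u := sub_eq_zero.mp h4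
    rw [pow_two]
    nth_rewrite 1 [← h5]
    exact inv_mul_cancel₀ hu0
  have hc2 : Complex.cos (Real.pi * s / 2) ≠ 0 := by
    have h5 : Gammaℝ s / Gammaℝ (1 - s) ≠ 0 := by
      apply div_ne_zero (gammaR_cs_ne t)
      apply Complex.Gammaℝ_ne_zero_of_re_pos
      rw [Complex.sub_re, hs, cs_re, Complex.one_re]; norm_num
    rw [Complex.Gammaℝ_div_Gammaℝ_one_sub hne] at h5
    exact right_ne_zero_of_mul h5
  unfold chiT
  rw [h1, h2, hX]
  have hcalc : Complex.Gamma (1 - s) * (2 * Real.pi : ℂ) ^ (s - 1) *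
      (Real.exp (Real.pi * t / 2) : ℂ) * ei (Real.pi / 4) *
      (2 * (2 * Real.pi : ℂ) ^ (-s) * Complex.Gamma s * Complex.cos (Real.pi * s / 2)) *
      (1 - u ^ 2) =
      ((Complex.Gamma s * Complex.Gamma (1 - s)) *
      ((2 * Real.pi : ℂ) ^ (s - 1) * (2 * Real.pi : ℂ) ^ (-s)) *
      ((Real.exp (Real.pi * t / 2) : ℂ) * ei (Real.pi / 4)) * 2 *
        Complex.cos (Real.pi * s / 2)) * (1 - u ^ 2) := by ring
  rw [hcalc, hG, h3, hE, hsin]
  have hq : (1 - u ^ 2) = u * (u⁻¹ - u) := by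
    field_simp
  have hq2 : u⁻¹ - u = Complex.sin (Real.pi * s / 2) * 2 / Complex.I := by
    rw [hsin2]
    field_simp [Complex.I_ne_zero]
  rw [hq, hq2]
  field_simp [Complex.I_ne_zero]

theorem z4 : TZ4 := by
  refine ⟨1, one_pos, fun t ht => ?_⟩
  have ht0 : 0 < t := by linarith
  have h := chiT_eTheta t ht0
  set ε : ℝ := Real.exp (-(Real.pi * t)) with hε
  have hε0 : 0 < ε := Real.exp_pos _
  set w : ℂ := 1 - Complex.I * (ε : ℂ) with hw
  have hw1 : 1 ≤ ‖w‖ := by
    have : w.re = 1 := by simp [hw]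
    calc (1 : ℝ) = |w.re| := by rw [this, abs_one]
      _ ≤ ‖w‖ := Complex.abs_re_le_norm w
  have hw0 : w ≠ 0 := by
    intro h0
    rw [h0, norm_zero] at hw1
    norm_num at hw1
  have h2 : chiT t * eTheta t ^ 2 - 1 = Complex.I * ε / w := by
    have : chiT t * eTheta t ^ 2 = 1 / w := by
      rw [eq_div_iff hw0]; exact h
    rw [this, div_sub_one hw0]
    congr 1
    rw [hw]; ring
  rw [h2, norm_div, norm_mul, Complex.norm_I, one_mul, Complex.norm_real, Real.norm_eq_abs,
    abs_of_pos hε0]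
  have h3 : ε ≤ 1 / t := by
    rw [hε, Real.exp_neg, ← one_div]
    apply one_div_le_one_div_of_le ht0
    have := Real.add_one_le_exp (Real.pi * t)
    have hpi := Real.pi_gt_three
    nlinarith
  calc ε / ‖w‖ ≤ ε / 1 := div_le_div_of_nonneg_left hε0.le one_pos hw1
    _ ≤ 1 / t := by rw [div_one]; exact h3

end Pool.Agent.H58.Cubic
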