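import Mathlib
import Pool.Agent.H98.Cubic.Targets
import Pool.Agent.H98.Cubic.Basic

set_option autoImplicit false

open Finset MeasureTheory Filter Topology

namespace Pool.Agent.H58.Cubic

open Pool.Agent.H98.Cubic

/-- the dyadic bound -/
theorem dyadic (hRed : TRed) (hW : TW) (ε : ℝ) (hε : 0 < ε) : ∃ C : ℝ, 0 < C ∧
    ∀ T : ℝ, 200 * Real.pi ≤ T → |∫ t in T..(2 * T), Z t ^ 3| ≤ C * T ^ (19 / 20 + ε : ℝ) := by
  obtain ⟨C₁, hC₁, hRed⟩ := hRed
  obtain ⟨C₂, hC₂, hW⟩ := hW ε hε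
  refine ⟨C₁ + 12 * Real.sqrt 2 * Real.pi * C₂, by positivity, fun T hT => ?_⟩
  have hpi := Real.pi_gt_three
  have hT1 : 1 ≤ T := by nlinarith
  have hT0 : 0 < T := by linarith
  set N : ℝ := Real.sqrt (T / (2 * Real.pi)) with hN
  have hq : 0 ≤ T / (2 * Real.pi) := by positivity
  have hNsq : N ^ 2 = T / (2 * Real.pi) := Real.sq_sqrt hq
  have hTN : 2 * Real.pi * N ^ 2 = T := by rw [hNsq]; field_simp
  have hN10 : 10 ≤ N := by
    apply Real.le_sqrt_of_sq_le
    rw [le_div_iff₀ (by positivity)]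
    linarith
  have hN1 : 1 ≤ N := by linarith
  have hN0 : 0 < N := by linarith
  have h1 := hRed N hN10
  have h2 := hW N hN1
  rw [hTN] at h1
  set x : ℝ := (ee (1 / 16) * (starRingEnd ℂ) (W N)).re with hx
  have hxW : |x| ≤ C₂ * N ^ (19 / 10 + ε : ℝ) := by
    refine le_trans ?_ h2
    refine (Complex.abs_re_le_norm _).trans (le_of_eq ?_)
    rw [norm_mul, norm_ee, one_mul, Complex.norm_conj]
  have hp1 : N ^ (19 / 10 : ℝ) ≤ N ^ (19 / 10 + ε : ℝ) :=
    Real.rpow_le_rpow_of_exponent_le hN1 (by linarith)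
  have hp2 : N ^ (19 / 10 + ε : ℝ) ≤ T ^ (19 / 20 + ε : ℝ) := by
    have h3 : N ≤ T ^ (1 / 2 : ℝ) := by
      rw [← Real.sqrt_eq_rpow]
      apply Real.sqrt_le_sqrt
      exact div_le_self hT0.le (by linarith)
    calc N ^ (19 / 10 + ε : ℝ) ≤ (T ^ (1 / 2 : ℝ)) ^ (19 / 10 + ε : ℝ) :=
          Real.rpow_le_rpow hN0.le h3 (by positivity)
      _ = T ^ (1 / 2 * (19 / 10 + ε) : ℝ) := by rw [← Real.rpow_mul hT0.le]
      _ ≤ T ^ (19 / 20 + ε : ℝ) := Real.rpow_le_rpow_of_exponent_le hT1 (by linarith)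
  have h4 : |∫ t in T..(2 * T), Z t ^ 3| ≤
      C₁ * N ^ (19 / 10 : ℝ) + |12 * Real.sqrt 2 * Real.pi * x| := by
    have := abs_sub_abs_le_abs_sub (∫ t in T..(2 * T), Z t ^ 3) (12 * Real.sqrt 2 * Real.pi * x)
    linarith
  have h5 : |12 * Real.sqrt 2 * Real.pi * x| = 12 * Real.sqrt 2 * Real.pi * |x| := by
    rw [abs_mul, abs_of_nonneg (by positivity : 0 ≤ 12 * Real.sqrt 2 * Real.pi)]
  calc |∫ t in T..(2 * T), Z t ^ 3| ≤ C₁ * N ^ (19 / 10 : ℝ) + 12 * Real.sqrt 2 * Real.pi * |x| := by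
        rw [← h5]; exact h4
    _ ≤ C₁ * T ^ (19 / 20 + ε : ℝ) + 12 * Real.sqrt 2 * Real.pi * (C₂ * T ^ (19 / 20 + ε : ℝ)) := by
        gcongr
        · exact hp1.trans hp2
        · exact hxW.trans (mul_le_mul_of_nonneg_left hp2 hC₂.le)
    _ = _ := by ring

theorem final (hRed : TRed) (hW : TW) (hZ : TZreal) : TFinal := by
  intro ε hε
  obtain ⟨C, hC, hd⟩ := dyadic hRed hW ε hε
  have hcont : Continuous (fun t => Z t ^ 3) := hZ.2.2.pow 3
  have hii : ∀ a b : ℝ, IntervalIntegrable (fun t => Z t ^ 3) volume a b := fun a b =>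
    hcont.intervalIntegrable a b
  set a : ℝ := 19 / 20 + ε with ha
  have ha0 : 0 < a := by positivity
  set T₁ : ℝ := 200 * Real.pi with hT₁
  have hpi := Real.pi_gt_three
  have hT₁1 : 1 ≤ T₁ := by rw [hT₁]; linarith
  set K₁ : ℝ := ∫ t in (0 : ℝ)..(2 * T₁), |Z t ^ 3| with hK₁
  have hK₁0 : 0 ≤ K₁ := intervalIntegral.integral_nonneg (by linarith) (fun t _ => abs_nonneg _)
  set K : ℝ := K₁ + 2 * C with hK
  have hK0 : 0 < K := by positivity
  have h2a : (3 / 2 : ℝ) ≤ 2 ^ a := by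
    have h1 : (3 / 2 : ℝ) ≤ 2 ^ (19 / 20 : ℝ) := by
      have h2 : ((3 / 2 : ℝ) ^ (20 : ℕ)) ^ (1 / 20 : ℝ) ≤ ((2 : ℝ) ^ (19 : ℕ)) ^ (1 / 20 : ℝ) := by
        apply Real.rpow_le_rpow (by positivity) (by norm_num) (by norm_num)
      rw [← Real.rpow_natCast, ← Real.rpow_natCast, ← Real.rpow_mul (by norm_num),
        ← Real.rpow_mul (by norm_num)] at h2
      norm_num at h2 ⊢
      exact h2
    exact h1.trans (Real.rpow_le_rpow_of_exponent_le (by norm_num) (by linarith))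
  have key : ∀ k : ℕ, ∀ T : ℝ, T₁ ≤ T → T ≤ 2 ^ (k + 1) * T₁ →
      |∫ t in (0 : ℝ)..T, Z t ^ 3| ≤ K * T ^ a := by
    intro k
    induction k with
    | zero =>
      intro T h1 h2
      have hT1 : 1 ≤ T := hT₁1.trans h1
      have h3 : |∫ t in (0 : ℝ)..T, Z t ^ 3| ≤ ∫ t in (0 : ℝ)..T, |Z t ^ 3| :=
        intervalIntegral.abs_integral_le_integral_abs (by linarith)
      have h4 : ∫ t in (0 : ℝ)..T, |Z t ^ 3| ≤ K₁ := by
        apply intervalIntegral.integral_mono_interval le_rfl (by linarith)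
        · simpa using h2
        · filter_upwards with t; exact abs_nonneg _
        · exact hcont.abs.intervalIntegrable _ _
      have h5 : 1 ≤ T ^ a := Real.one_le_rpow hT1 ha0.le
      have h6 : K₁ ≤ K := by rw [hK]; linarith
      calc |∫ t in (0 : ℝ)..T, Z t ^ 3| ≤ K := by linarith
        _ ≤ K * T ^ a := le_mul_of_one_le_right hK0.le h5
    | succ k ih =>
      intro T h1 h2
      rcases le_total T (2 ^ (k + 1) * T₁) with h | h
      · exact ih T h1 h
      · have h3 : 2 * T₁ ≤ T := by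
          refine le_trans ?_ h
          have : (2 : ℝ) ≤ 2 ^ (k + 1) := by
            rw [pow_succ]
            have : (1 : ℝ) ≤ 2 ^ k := one_le_pow₀ (by norm_num)
            linarith
          nlinarith
        have hT0 : 0 < T := by linarith
        have h4 := ih (T / 2) (by linarith) (by rw [pow_succ] at h2; linarith)
        have h5 := hd (T / 2) (by linarith)
        have e : 2 * (T / 2) = T := by ring
        rw [e] at h5
        have h6 : ∫ t in (0 : ℝ)..T, Z t ^ 3 =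
            (∫ t in (0 : ℝ)..(T / 2), Z t ^ 3) + ∫ t in (T / 2)..T, Z t ^ 3 :=
          (intervalIntegral.integral_add_adjacent_intervals (hii _ _) (hii _ _)).symm
        rw [h6]
        refine (abs_add_le _ _).trans ?_
        have h7 : T ^ a = 2 ^ a * (T / 2) ^ a := by
          rw [← Real.mul_rpow (by norm_num) (by positivity)]
          congr 1; ring
        have h8 : 0 < (T / 2) ^ a := by positivity
        rw [h7]
        have h9 : K + C ≤ K * 2 ^ a := by
          have : 2 * C ≤ K := by rw [hK]; linarith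
          nlinarith
        calc _ ≤ K * (T / 2) ^ a + C * (T / 2) ^ a := add_le_add h4 h5
          _ = (K + C) * (T / 2) ^ a := by ring
          _ ≤ (K * 2 ^ a) * (T / 2) ^ a := mul_le_mul_of_nonneg_right h9 h8.le
          _ = _ := by ring
  apply Asymptotics.IsBigO.of_bound K
  filter_upwards [eventually_ge_atTop T₁] with T hT
  obtain ⟨k, hk⟩ : ∃ k : ℕ, T / T₁ < 2 ^ k := pow_unbounded_of_one_lt _ (by norm_num)
  have hT₁0 : 0 < T₁ := by linarith
  rw [div_lt_iff₀ hT₁0] at hk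
  have h1 : T ≤ 2 ^ (k + 1) * T₁ := by
    rw [pow_succ]
    have : 0 ≤ (2 : ℝ) ^ k * T₁ := by positivity
    linarith
  have h2 := key k T hT h1
  have hT0 : 0 < T := by linarith
  rw [Real.norm_eq_abs, Real.norm_eq_abs, abs_of_nonneg (by positivity : 0 ≤ T ^ a)]
  exact h2

end Pool.Agent.H58.Cubic
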