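import Mathlib
import Pool.Agent.H98.Cubic.Targets
import Pool.Agent.H98.Cubic.Basic

set_option autoImplicit false

open Finset MeasureTheory

namespace Pool.Agent.H58.Cubic

open Pool.Agent.H98.Cubic

/-- integral with a lower cutoff -/
theorem integral_cut {a b c : ℝ} (hab : a ≤ b) (hcb : c ≤ b) (g : ℝ → ℂ) :
    (∫ t in a..b, (if c ≤ t then g t else 0)) = ∫ t in (max a c)..b, g t := by
  rw [intervalIntegral.integral_of_le hab, intervalIntegral.integral_of_le (max_le hab hcb)]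
  have e : (fun t => if c ≤ t then g t else 0) = (Set.Ici c).indicator g := by
    funext t
    by_cases h : c ≤ t
    · rw [if_pos h, Set.indicator_of_mem (Set.mem_Ici.mpr h)]
    · rw [if_neg h, Set.indicator_of_notMem (fun h' => h (Set.mem_Ici.mp h'))]
  rw [e, setIntegral_indicator measurableSet_Ici]
  rcases lt_or_ge a c with h | h
  · have e2 : Set.Ioc a b ∩ Set.Ici c = Set.Icc c b := by
      ext t
      simp only [Set.mem_inter_iff, Set.mem_Ioc, Set.mem_Ici, Set.mem_Icc]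
      constructor
      · rintro ⟨⟨h1, h2⟩, h3⟩; exact ⟨h3, h2⟩
      · rintro ⟨h1, h2⟩; exact ⟨⟨lt_of_lt_of_le h h1, h2⟩, h1⟩
    rw [e2, max_eq_right h.le, integral_Icc_eq_integral_Ioc]
  · have e2 : Set.Ioc a b ∩ Set.Ici c = Set.Ioc a b := by
      ext t
      simp only [Set.mem_inter_iff, Set.mem_Ioc, Set.mem_Ici]
      constructor
      · rintro ⟨h1, _⟩; exact h1
      · rintro ⟨h1, h2⟩; exact ⟨⟨h1, h2⟩, (lt_of_le_of_lt h h1).le⟩
    rw [e2, max_eq_left h]

theorem intervalIntegrable_cut {a b c : ℝ} {g : ℝ → ℂ} (hg : Continuous g) :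
    IntervalIntegrable (fun t => if c ≤ t then g t else 0) volume a b := by
  have e : (fun t => if c ≤ t then g t else 0) = (Set.Ici c).indicator g := by
    funext t
    by_cases h : c ≤ t
    · rw [if_pos h, Set.indicator_of_mem (Set.mem_Ici.mpr h)]
    · rw [if_neg h, Set.indicator_of_notMem (fun h' => h (Set.mem_Ici.mp h'))]
  rw [e, intervalIntegrable_iff]
  exact (intervalIntegrable_iff.mp (hg.intervalIntegrable a b)).indicator measurableSet_Ici

/-- the cutoff condition -/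
theorem le_floor_iff {n : ℕ} (hn : 1 ≤ n) {t : ℝ} :
    n ≤ ⌊Real.sqrt (t / (2 * Real.pi))⌋₊ ↔ 2 * Real.pi * (n : ℝ) ^ 2 ≤ t := by
  rw [Nat.le_floor_iff' (by omega), Real.le_sqrt' (by exact_mod_cast hn),
    le_div_iff₀ (by positivity)]
  rw [mul_comm]

/-- the sum `A(t)` with a fixed range and cutoffs -/
theorem A_eq {M : ℕ} {t : ℝ} (hM : ⌊Real.sqrt (t / (2 * Real.pi))⌋₊ ≤ M) :
    A t = ∑ n ∈ Icc 1 M, if 2 * Real.pi * (n : ℝ) ^ 2 ≤ t then zt n t else 0 := by
  unfold A
  rw [← Finset.sum_filter]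
  apply Finset.sum_congr _ (fun _ _ => rfl)
  ext n
  simp only [Finset.mem_Icc, Finset.mem_filter]
  constructor
  · rintro ⟨h1, h2⟩
    exact ⟨⟨h1, h2.trans hM⟩, (le_floor_iff h1).mp h2⟩
  · rintro ⟨⟨h1, _⟩, h3⟩
    exact ⟨h1, (le_floor_iff h1).mpr h3⟩

/-- exponential integral of a linear phase -/
theorem lin_phase {a b l : ℝ} (hab : a ≤ b) (hl : l ≠ 0) :
    ‖∫ t in a..b, ei (l * t)‖ ≤ 4 / |l| := by
  apply norm_integral_ei_le (h' := fun _ => l) (h'' := fun _ => 0) hab (abs_pos.mpr hl)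
  · intro x _
    simpa using (hasDerivAt_id x).const_mul l
  · intro x _
    exact hasDerivAt_const x l
  · exact continuousOn_const
  · left; intro x _; exact le_rfl
  · intro x _; exact le_rfl

theorem off_diag_aux {m n : ℕ} (hm : 1 ≤ m) (hmn : m < n) :
    1 / Real.sqrt m * (1 / Real.sqrt n) * (4 / (Real.log n - Real.log m)) ≤ 8 := by
  have hm0 : (0 : ℝ) < m := by exact_mod_cast hm
  have hn0 : (0 : ℝ) < n := by exact_mod_cast (by omega : 0 < n)
  have hmn' : (m : ℝ) + 1 ≤ n := by exact_mod_cast hmn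
  have h1 : ((n : ℝ) - m) / n ≤ Real.log n - Real.log m := by
    rw [← Real.log_div hn0.ne' hm0.ne']
    have := Real.one_sub_inv_le_log_of_pos (x := (n : ℝ) / m) (by positivity)
    rw [inv_div] at this
    refine le_trans (le_of_eq ?_) this
    field_simp
  have h2 : 0 < ((n : ℝ) - m) / n := div_pos (by linarith) hn0
  have h3 : 4 / (Real.log n - Real.log m) ≤ 4 / (((n : ℝ) - m) / n) :=
    div_le_div_of_nonneg_left (by norm_num) h2 h1
  have hsm : 0 < Real.sqrt m := Real.sqrt_pos.mpr hm0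
  have hsn : 0 < Real.sqrt n := Real.sqrt_pos.mpr hn0
  refine (mul_le_mul_of_nonneg_left h3 (by positivity)).trans ?_
  have hd : (0 : ℝ) < (n : ℝ) - m := by linarith
  have hsq : Real.sqrt n ≤ 2 * Real.sqrt m * ((n : ℝ) - m) := by
    have e2 : Real.sqrt n ^ 2 ≤ (2 * Real.sqrt m * ((n : ℝ) - m)) ^ 2 := by
      rw [mul_pow, mul_pow, Real.sq_sqrt hn0.le, Real.sq_sqrt hm0.le]
      have h4 : (n : ℝ) - 1 ≤ m * ((n : ℝ) - m) := by
        have : (1 : ℝ) ≤ m := by exact_mod_cast hm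
        nlinarith
      have h5 : (1 : ℝ) ≤ (n : ℝ) - m := by linarith
      have h6 : (2 : ℝ) ≤ n := by
        have : (1 : ℝ) ≤ m := by exact_mod_cast hm
        linarith
      nlinarith
    exact (abs_le_of_sq_le_sq' e2 (by positivity)).2
  have e3 : 1 / Real.sqrt m * (1 / Real.sqrt n) * (4 / (((n : ℝ) - m) / n)) =
      4 * Real.sqrt n / (Real.sqrt m * ((n : ℝ) - m)) := by
    have hnn : (n : ℝ) = Real.sqrt n * Real.sqrt n := (Real.mul_self_sqrt hn0.le).symm
    rw [div_div_eq_mul_div]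
    nth_rewrite 2 [hnn]
    field_simp
  rw [e3, div_le_iff₀ (by positivity)]
  nlinarith

theorem off_diag {m n : ℕ} (hm : 1 ≤ m) (hn : 1 ≤ n) (hmn : m ≠ n) :
    1 / Real.sqrt m * (1 / Real.sqrt n) * (4 / |Real.log n - Real.log m|) ≤ 8 := by
  rcases lt_or_gt_of_ne hmn with h | h
  · have h1 := off_diag_aux hm h
    have h2 : Real.log m ≤ Real.log n :=
      Real.log_le_log (by exact_mod_cast hm) (by exact_mod_cast h.le)
    rwa [abs_of_nonneg (by linarith)]
  · have h1 := off_diag_aux hn h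
    have h2 : Real.log n ≤ Real.log m :=
      Real.log_le_log (by exact_mod_cast hn) (by exact_mod_cast h.le)
    rw [abs_sub_comm, abs_of_nonneg (by linarith), mul_comm (1 / Real.sqrt m)]
    exact h1

theorem log_ne {m n : ℕ} (hm : 1 ≤ m) (hn : 1 ≤ n) (hmn : m ≠ n) :
    Real.log n - Real.log m ≠ 0 := by
  intro h
  have h1 : Real.log n = Real.log m := by linarith
  have := Real.log_injOn_pos (Set.mem_Ioi.mpr (by exact_mod_cast hn : (0 : ℝ) < n))
    (Set.mem_Ioi.mpr (by exact_mod_cast hm : (0 : ℝ) < m)) h1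
  exact hmn (by exact_mod_cast this.symm)

theorem zt_mul_conj (m n : ℕ) (t : ℝ) : zt m t * (starRingEnd ℂ) (zt n t) =
    ((1 / Real.sqrt m * (1 / Real.sqrt n) : ℝ) : ℂ) * ei ((Real.log n - Real.log m) * t) := by
  unfold zt
  rw [map_mul, Complex.conj_ofReal, conj_ei]
  have : (Real.log n - Real.log m) * t = -(t * Real.log m) + -(-(t * Real.log n)) := by ring
  rw [this, ei_add]
  push_cast
  ring

theorem second : TSecond := by
  refine ⟨9, by norm_num, fun T hT => ?_⟩
  have hT0 : 0 < T := by linarith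
  set M : ℕ := ⌊Real.sqrt (2 * T / (2 * Real.pi))⌋₊ with hM
  have hpi := Real.pi_gt_three
  have hMsq : (M : ℝ) ^ 2 ≤ T / 3 := by
    have h1 : (M : ℝ) ≤ Real.sqrt (2 * T / (2 * Real.pi)) := Nat.floor_le (Real.sqrt_nonneg _)
    have h2 := pow_le_pow_left₀ (Nat.cast_nonneg M) h1 2
    rw [Real.sq_sqrt (by positivity)] at h2
    refine h2.trans ?_
    rw [div_le_div_iff₀ (by positivity) (by norm_num)]
    nlinarith
  have hfl : ∀ t ∈ Set.uIcc T (2 * T), ⌊Real.sqrt (t / (2 * Real.pi))⌋₊ ≤ M := by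
    intro t ht
    rw [Set.uIcc_of_le (by linarith)] at ht
    apply Nat.floor_le_floor
    apply Real.sqrt_le_sqrt
    exact div_le_div_of_nonneg_right ht.2 (by positivity)
  -- pointwise expansion
  have hpt : ∀ t ∈ Set.uIcc T (2 * T), ((‖P t‖ ^ 2 : ℝ) : ℂ) =
      ∑ m ∈ Icc 1 M, ∑ n ∈ Icc 1 M,
        (if 2 * Real.pi * (max (m : ℝ) n) ^ 2 ≤ t then
          ((1 / Real.sqrt m * (1 / Real.sqrt n) : ℝ) : ℂ) * ei ((Real.log n - Real.log m) * t)
          else 0) := by
    intro t ht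
    have h1 : ‖P t‖ = ‖A t‖ := by unfold P; rw [norm_mul, norm_ei, one_mul]
    rw [h1, ← Complex.normSq_eq_norm_sq, ← Complex.mul_conj, A_eq (hfl t ht), map_sum,
      Finset.sum_mul_sum]
    refine Finset.sum_congr rfl (fun m _ => Finset.sum_congr rfl (fun n _ => ?_))
    have hcond : (2 * Real.pi * (max (m : ℝ) n) ^ 2 ≤ t) ↔
        (2 * Real.pi * (m : ℝ) ^ 2 ≤ t ∧ 2 * Real.pi * (n : ℝ) ^ 2 ≤ t) := by
      rcases le_total (m : ℝ) n with h | h
      · rw [max_eq_right h]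
        have h2 : (m : ℝ) ^ 2 ≤ (n : ℝ) ^ 2 := pow_le_pow_left₀ (Nat.cast_nonneg m) h 2
        constructor
        · intro h3
          refine ⟨?_, h3⟩
          nlinarith [Real.pi_pos]
        · exact fun h3 => h3.2
      · rw [max_eq_left h]
        have h2 : (n : ℝ) ^ 2 ≤ (m : ℝ) ^ 2 := pow_le_pow_left₀ (Nat.cast_nonneg n) h 2
        constructor
        · intro h3
          refine ⟨h3, ?_⟩
          nlinarith [Real.pi_pos]
        · exact fun h3 => h3.1
    by_cases h2 : 2 * Real.pi * (m : ℝ) ^ 2 ≤ t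
    · by_cases h3 : 2 * Real.pi * (n : ℝ) ^ 2 ≤ t
      · rw [if_pos h2, if_pos h3, if_pos (hcond.mpr ⟨h2, h3⟩), zt_mul_conj]
      · rw [if_pos h2, if_neg h3, if_neg (fun h => h3 (hcond.mp h).2), map_zero, mul_zero]
    · rw [if_neg h2, if_neg (fun h => h2 (hcond.mp h).1), zero_mul]
  have hcont : ∀ m n : ℕ, Continuous (fun t : ℝ =>
      ((1 / Real.sqrt m * (1 / Real.sqrt n) : ℝ) : ℂ) * ei ((Real.log n - Real.log m) * t)) := by
    intro m n
    exact continuous_const.mul (continuous_ei.comp (continuous_const.mul continuous_id))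
  -- integral of the expansion
  have hint : ((∫ t in T..(2 * T), ‖P t‖ ^ 2 : ℝ) : ℂ) =
      ∑ m ∈ Icc 1 M, ∑ n ∈ Icc 1 M, ∫ t in T..(2 * T),
        (if 2 * Real.pi * (max (m : ℝ) n) ^ 2 ≤ t then
          ((1 / Real.sqrt m * (1 / Real.sqrt n) : ℝ) : ℂ) * ei ((Real.log n - Real.log m) * t)
          else 0) := by
    rw [← intervalIntegral.integral_ofReal, intervalIntegral.integral_congr hpt,
      intervalIntegral.integral_finset_sum]
    · refine Finset.sum_congr rfl (fun m _ => ?_)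
      rw [intervalIntegral.integral_finset_sum]
      intro n _
      exact intervalIntegrable_cut (hcont m n)
    · intro m _
      have h := IntervalIntegrable.sum (a := T) (b := 2 * T) (μ := volume) (Icc 1 M)
        (f := fun (n : ℕ) (t : ℝ) => if 2 * Real.pi * (max (m : ℝ) n) ^ 2 ≤ t then
          ((1 / Real.sqrt m * (1 / Real.sqrt n) : ℝ) : ℂ) * ei ((Real.log n - Real.log m) * t)
          else 0) (fun n _ => intervalIntegrable_cut (hcont m n))
      have e : (fun t : ℝ => ∑ n ∈ Icc 1 M, if 2 * Real.pi * (max (m : ℝ) n) ^ 2 ≤ t then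
          ((1 / Real.sqrt m * (1 / Real.sqrt n) : ℝ) : ℂ) * ei ((Real.log n - Real.log m) * t)
          else 0) = ∑ n ∈ Icc 1 M, fun (t : ℝ) => if 2 * Real.pi * (max (m : ℝ) n) ^ 2 ≤ t then
          ((1 / Real.sqrt m * (1 / Real.sqrt n) : ℝ) : ℂ) * ei ((Real.log n - Real.log m) * t)
          else 0 := by
        funext t
        rw [Finset.sum_apply]
      rw [e]
      exact h
  -- each term
  have hterm : ∀ m ∈ Icc 1 M, ∀ n ∈ Icc 1 M, ‖∫ t in T..(2 * T),
        (if 2 * Real.pi * (max (m : ℝ) n) ^ 2 ≤ t then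
          ((1 / Real.sqrt m * (1 / Real.sqrt n) : ℝ) : ℂ) * ei ((Real.log n - Real.log m) * t)
          else 0)‖ ≤ (if m = n then T * (m : ℝ)⁻¹ else 0) + 8 := by
    intro m hm n hn
    rw [Finset.mem_Icc] at hm hn
    have hmax : (max (m : ℝ) n) = ((max m n : ℕ) : ℝ) := by push_cast; rfl
    have hc : 2 * Real.pi * (max (m : ℝ) n) ^ 2 ≤ 2 * T := by
      rw [hmax]
      apply (le_floor_iff (by omega)).mp
      rw [← hM]
      omega
    rw [integral_cut (by linarith) hc, intervalIntegral.integral_const_mul, norm_mul,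
      Complex.norm_real, Real.norm_eq_abs, abs_of_nonneg (by positivity)]
    have hle : max T (2 * Real.pi * (max (m : ℝ) n) ^ 2) ≤ 2 * T := max_le (by linarith) hc
    by_cases hmn : m = n
    · rw [if_pos hmn]
      have h1 := norm_integral_ei_le_length hle (fun t => (Real.log n - Real.log m) * t)
      have h2 : 2 * T - max T (2 * Real.pi * (max (m : ℝ) n) ^ 2) ≤ T := by
        have := le_max_left T (2 * Real.pi * (max (m : ℝ) n) ^ 2)
        linarith
      have h3 : 1 / Real.sqrt m * (1 / Real.sqrt n) = (m : ℝ)⁻¹ := by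
        rw [← hmn, one_div, ← mul_inv, Real.mul_self_sqrt (Nat.cast_nonneg m)]
      rw [h3]
      have h4 : 0 ≤ (m : ℝ)⁻¹ := by positivity
      have h5 := mul_le_mul_of_nonneg_left (h1.trans h2) h4
      linarith
    · rw [if_neg hmn, zero_add]
      have h1 := lin_phase hle (log_ne hm.1 hn.1 hmn)
      refine (mul_le_mul_of_nonneg_left h1 (by positivity)).trans ?_
      exact off_diag hm.1 hn.1 hmn
  have hsum : ∫ t in T..(2 * T), ‖P t‖ ^ 2 ≤
      ∑ m ∈ Icc 1 M, ∑ n ∈ Icc 1 M, ((if m = n then T * (m : ℝ)⁻¹ else 0) + 8) := by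
    have h1 : ∫ t in T..(2 * T), ‖P t‖ ^ 2 ≤ ‖((∫ t in T..(2 * T), ‖P t‖ ^ 2 : ℝ) : ℂ)‖ := by
      rw [Complex.norm_real]; exact le_abs_self _
    refine h1.trans ?_
    rw [hint]
    refine (norm_sum_le _ _).trans (Finset.sum_le_sum (fun m hm => ?_))
    exact (norm_sum_le _ _).trans (Finset.sum_le_sum (fun n hn => hterm m hm n hn))
  refine hsum.trans ?_
  have h1 : ∑ m ∈ Icc 1 M, ∑ n ∈ Icc 1 M, ((if m = n then T * (m : ℝ)⁻¹ else 0) + 8) =
      T * ∑ m ∈ Icc 1 M, (m : ℝ)⁻¹ + 8 * (M : ℝ) ^ 2 := by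
    have : ∀ m ∈ Icc 1 M, ∑ n ∈ Icc 1 M, ((if m = n then T * (m : ℝ)⁻¹ else 0) + 8) =
        T * (m : ℝ)⁻¹ + 8 * M := by
      intro m hm
      rw [Finset.sum_add_distrib, Finset.sum_ite_eq, if_pos hm, Finset.sum_const, Nat.card_Icc,
        nsmul_eq_mul, Nat.add_sub_cancel]
      ring
    rw [Finset.sum_congr rfl this, Finset.sum_add_distrib, Finset.sum_const, Nat.card_Icc,
      nsmul_eq_mul, Nat.add_sub_cancel, Finset.mul_sum]
    ring
  rw [h1]
  have hlogT : 0 ≤ Real.log T := Real.log_nonneg hT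
  have h2 : ∑ m ∈ Icc 1 M, (m : ℝ)⁻¹ ≤ 1 + Real.log T := by
    have h3 := harmonic_le_one_add_log M
    rw [harmonic_eq_sum_Icc] at h3
    push_cast at h3
    rcases Nat.eq_zero_or_pos M with h0 | h0
    · rw [h0]; simp; linarith
    · have h4 : (1 : ℝ) ≤ M := by exact_mod_cast h0
      have h5 : (M : ℝ) ≤ T := by nlinarith
      have h6 : Real.log M ≤ Real.log T := Real.log_le_log (by linarith) h5
      linarith
  have h3 : T * ∑ m ∈ Icc 1 M, (m : ℝ)⁻¹ ≤ T * (1 + Real.log T) :=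
    mul_le_mul_of_nonneg_left h2 hT0.le
  nlinarith [mul_nonneg hT0.le hlogT]

end Pool.Agent.H58.Cubic
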